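import Pool.Agent.Helper49.AXU.W20

/-!
# Exceptions to the conjecture of Lang and Rohrlich are rare

A set `J` of rational numbers in `(0, 1)` is exceptional if the conjecture of Lang and Rohrlich says that `π` and the
numbers `Γ(r)`, `r ∈ J`, are algebraically independent, but they satisfy a polynomial relation of small degree with
small integer coefficients.
-/

namespace Pool.Agent.Helper27.FES

open MvPolynomial Filter Pool.Agent.Helper49

/-- The first Bernoulli function `x - [x] - 1/2`. -/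
def B1 (x : ℚ) : ℚ := Int.fract x - 1 / 2

/-- For no integers `n_r`, `r ∈ J`, not all `0`, is `∑_r n_r B1 (u r) = 0` for all integers `u` prime to the
denominators of the elements of `J`. -/
def Free (J : Finset ℚ) : Prop :=
  ∀ n : ℚ → ℤ, (∀ u : ℤ, (∀ r ∈ J, IsCoprime u (r.den : ℤ)) → ∑ r ∈ J, (n r : ℚ) * B1 (u * r) = 0) →
    ∀ r ∈ J, n r = 0

/-- The sets `J` of rational numbers in `(0, 1)` with denominators `≤ Q` which are `Free` and for which `π` and the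
`Γ(r)`, `r ∈ J`, are a zero of a nonzero polynomial over `ℤ` of total degree `≤ m` with coefficients of absolute
value `≤ Q ^ m`. -/
def Exc (Q m : ℕ) : Set (Finset ℚ) :=
  {J | (∀ r ∈ J, 0 < r ∧ r < 1 ∧ r.den ≤ Q) ∧ Free J ∧
    ∃ P : MvPolynomial (Option J) ℤ, P ≠ 0 ∧ P.totalDegree ≤ m ∧ (∀ ν, |coeff ν P| ≤ (Q : ℤ) ^ m) ∧
      aeval (fun o : Option J => o.elim (Real.pi : ℂ) (fun r => Complex.Gamma ((r : ℚ) : ℂ))) P = 0}

theorem free_mono {J J' : Finset ℚ} (h : Free J) (hs : J' ⊆ J) : Free J' := by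
  classical
  intro n hn r hr
  have h1 := h (fun x => if x ∈ J' then n x else 0) (fun u hu => ?_) r (hs hr)
  · simpa [hr] using h1
  · rw [← hn u (fun r hr => hu r (hs hr)), ← Finset.sum_subset hs]
    · exact Finset.sum_congr rfl fun x hx => by simp only [hx, if_true]
    · intro x _ hx
      simp only [hx, if_false, Int.cast_zero, zero_mul]

theorem stdInd_of_free {J : Finset ℚ} (h : Free J) (D : ℕ) : AXU.StdInd D J := by
  intro m n _ _ hu r hr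
  have h1 : (m r : ℤ) - n r = 0 := h (fun x => (m x : ℤ) - n x) (fun u hu' => ?_) r hr
  · omega
  · rw [← hu u hu']
    refine Finset.sum_congr rfl fun x _ => ?_
    push_cast
    rfl

theorem cover {Q m k : ℕ} {J : Finset ℚ} (hJ : J ∈ Exc Q m) (hk : J.card ≤ k) :
    ∃ J' ∈ AXU.MinLe (AXU.Lam (fun j : Fin (m + 1) => (Real.pi : ℂ) ^ (j : ℕ)) (Q ^ m)) k m Q, J' ⊆ J := by
  obtain ⟨h1, h2, P, hP, hd, hH, h0⟩ := hJ
  have hdep := AXU.depL_of_pi (H := Q ^ m) P hP hd (by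
    intro ν
    rw [Nat.cast_pow]
    exact hH ν) h0
  obtain ⟨J', h3, h4, h5⟩ := AXU.exists_minL' hdep
  refine ⟨J', ⟨(Finset.card_le_card h3).trans hk, fun r hr => h1 r (h3 hr), ?_, h4, h5⟩, h3⟩
  exact AXU.NR_of_StdInd (fun r hr => ⟨(h1 r (h3 hr)).1, (h1 r (h3 hr)).2.1⟩)
    (stdInd_of_free (free_mono h2 h3) m)

/-- the rationals in `(0, 1)` with denominators `≤ Q` -/
def Rt (Q : ℕ) : Finset ℚ := (Finset.Icc 1 Q ×ˢ Finset.Icc 1 Q).image fun p => (p.1 : ℚ) / (p.2 : ℚ)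

theorem card_Rt (Q : ℕ) : (Rt Q).card ≤ Q ^ 2 := by
  unfold Rt
  refine Finset.card_image_le.trans ?_
  rw [Finset.card_product, Nat.card_Icc, Nat.add_sub_cancel, sq]

theorem mem_Rt {Q : ℕ} {r : ℚ} (h : 0 < r ∧ r < 1 ∧ r.den ≤ Q) : r ∈ Rt Q := by
  obtain ⟨h1, h2, h3⟩ := h
  have h4 : 0 < r.num := Rat.num_pos.2 h1
  have h5 : r.num < r.den := Rat.num_lt_denom_iff.2 h2
  have h6 := r.den_pos
  unfold Rt
  refine Finset.mem_image.2 ⟨(r.num.toNat, r.den), ?_, ?_⟩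
  · rw [Finset.mem_product, Finset.mem_Icc, Finset.mem_Icc]
    simp only
    omega
  · simp only
    have h7 : ((r.num.toNat : ℕ) : ℚ) = (r.num : ℚ) := by
      have : ((r.num.toNat : ℕ) : ℤ) = r.num := Int.toNat_of_nonneg h4.le
      exact_mod_cast this
    rw [h7, Rat.num_div_den]

theorem count {E : Set (Finset ℚ)} {M : Finset (Finset ℚ)} {Q k : ℕ} {ε : ℝ} (hQ : 1 ≤ Q)
    (hE : ∀ J ∈ E, J.card = k ∧ (∀ r ∈ J, 0 < r ∧ r < 1 ∧ r.den ≤ Q) ∧ ∃ J' ∈ M, J' ⊆ J)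
    (hM0 : ∅ ∉ M) (hM : (M.card : ℝ) ≤ (Q : ℝ) ^ ε) :
    (E.ncard : ℝ) ≤ (Q : ℝ) ^ (2 * (k : ℝ) - 2 + ε) := by
  classical
  have hQ0 : (0 : ℝ) < Q := by exact_mod_cast hQ
  rcases Nat.eq_zero_or_pos k with hk | hk
  · have h0 : E = ∅ := by
      ext J
      simp only [Set.mem_empty_iff_false, iff_false]
      intro hJ
      obtain ⟨h1, -, J', h2, h3⟩ := hE J hJ
      rw [hk] at h1
      rw [Finset.card_eq_zero.1 h1, Finset.subset_empty] at h3
      rw [h3] at h2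
      exact hM0 h2
    rw [h0, Set.ncard_empty, Nat.cast_zero]
    positivity
  · have hsub : E ⊆ ((M.biUnion fun J' => ((Rt Q).powersetCard (k - J'.card)).image
        (fun T => J' ∪ T) : Finset (Finset ℚ)) : Set (Finset ℚ)) := by
      intro J hJ
      obtain ⟨h1, h2, J', h3, h4⟩ := hE J hJ
      rw [Finset.mem_coe, Finset.mem_biUnion]
      refine ⟨J', h3, Finset.mem_image.2 ⟨J \ J', Finset.mem_powersetCard.2
        ⟨fun r hr => mem_Rt (h2 r (Finset.mem_sdiff.1 hr).1), ?_⟩,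
        Finset.union_sdiff_of_subset h4⟩⟩
      rw [Finset.card_sdiff_of_subset h4, h1]
    have h1 := Set.ncard_le_ncard hsub (Finset.finite_toSet _)
    rw [Set.ncard_coe_finset] at h1
    have h2 : (M.biUnion fun J' => ((Rt Q).powersetCard (k - J'.card)).image
        (fun T => J' ∪ T)).card ≤ M.card * (Q ^ 2) ^ (k - 1) := by
      refine Finset.card_biUnion_le_card_mul _ _ _ fun J' hJ' => ?_
      refine Finset.card_image_le.trans ?_
      rw [Finset.card_powersetCard]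
      have hc : 1 ≤ J'.card := Finset.card_pos.2 (Finset.nonempty_iff_ne_empty.2 (by
        intro h
        rw [h] at hJ'
        exact hM0 hJ'))
      exact (Nat.choose_le_pow _ _).trans ((Nat.pow_le_pow_left (card_Rt Q) _).trans
        (Nat.pow_le_pow_right (by positivity) (by omega)))
    have h3 : (E.ncard : ℝ) ≤ M.card * ((Q : ℝ) ^ 2) ^ (k - 1) := by exact_mod_cast h1.trans h2
    refine h3.trans ?_
    have h4 : (Q : ℝ) ^ (2 * (k : ℝ) - 2 + ε) = (Q : ℝ) ^ ε * ((Q : ℝ) ^ 2) ^ (k - 1) := by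
      have h5 : 2 * (k : ℝ) - 2 + ε = ε + ((2 * (k - 1) : ℕ) : ℝ) := by
        rw [Nat.cast_mul, Nat.cast_sub (by omega)]
        push_cast
        ring
      rw [h5, Real.rpow_add hQ0, Real.rpow_natCast, pow_mul]
    rw [h4]
    exact mul_le_mul_of_nonneg_right hM (by positivity)

theorem rare : ∃ m : ℕ → ℕ, Tendsto m atTop atTop ∧ ∀ ε : ℝ, 0 < ε → ∀ᶠ Q : ℕ in atTop,
    (∃ M : Finset (Finset ℚ), ∅ ∉ M ∧ (M.card : ℝ) ≤ (Q : ℝ) ^ ε ∧
      ∀ J ∈ Exc Q (m Q), J.card ≤ m Q → ∃ J' ∈ M, J' ⊆ J) ∧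
    ∀ k ≤ m Q, ({J ∈ Exc Q (m Q) | J.card = k}.ncard : ℝ) ≤ (Q : ℝ) ^ (2 * (k : ℝ) - 2 + ε) := by
  classical
  obtain ⟨m₀, hm₀, h⟩ := AXU.count_diag
  refine ⟨fun Q => m₀ Q - 1, (tendsto_sub_atTop_nat 1).comp hm₀, fun ε hε => ?_⟩
  obtain ⟨C, -, hC⟩ := h (ε / 2) (by linarith)
  have hlim : ∀ᶠ Q : ℕ in atTop, C ≤ (Q : ℝ) ^ (ε / 2) :=
    ((tendsto_rpow_atTop (by linarith : 0 < ε / 2)).comp tendsto_natCast_atTop_atTop).eventually_ge_atTop C
  filter_upwards [hlim, hm₀.eventually_ge_atTop 1, eventually_ge_atTop 1] with Q h1 h2 hQ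
  have hQ0 : (0 : ℝ) < Q := by exact_mod_cast hQ
  obtain ⟨S, hS⟩ : ∃ S, S = AXU.MinLe (AXU.Lam (fun j : Fin (m₀ Q - 1 + 1) => (Real.pi : ℂ) ^ (j : ℕ))
    (Q ^ (m₀ Q - 1))) (m₀ Q) (m₀ Q - 1) Q := ⟨_, rfl⟩
  have hfin : S.Finite := by
    rw [hS]
    exact AXU.minLe_finite _ _ _ _
  have hcard : (S.ncard : ℝ) ≤ (Q : ℝ) ^ ε := by
    rw [hS]
    refine (hC Q (m₀ Q - 1 + 1) (m₀ Q - 1) (Q ^ (m₀ Q - 1)) _ hQ (by omega) (by omega)
      (Nat.pow_le_pow_right hQ (by omega))).trans ?_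
    have h3 : (Q : ℝ) ^ ε = (Q : ℝ) ^ (ε / 2) * (Q : ℝ) ^ (ε / 2) := by
      rw [← Real.rpow_add hQ0, add_halves]
    rw [h3]
    exact mul_le_mul_of_nonneg_right h1 (by positivity)
  have hM0 : ∅ ∉ hfin.toFinset := by
    rw [Set.Finite.mem_toFinset, hS]
    intro h3
    exact AXU.not_depL_empty _ _ h3.2.2.2.1
  have hMc : ((hfin.toFinset).card : ℝ) ≤ (Q : ℝ) ^ ε := by
    rwa [← Set.ncard_eq_toFinset_card _ hfin]
  have hcov : ∀ J ∈ Exc Q (m₀ Q - 1), J.card ≤ m₀ Q - 1 → ∃ J' ∈ hfin.toFinset, J' ⊆ J := by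
    intro J hJ hk
    obtain ⟨J', h3, h4⟩ := cover hJ (hk.trans (Nat.sub_le (m₀ Q) 1))
    refine ⟨J', ?_, h4⟩
    rw [Set.Finite.mem_toFinset, hS]
    exact h3
  refine ⟨⟨hfin.toFinset, hM0, hMc, hcov⟩, fun k hk => ?_⟩
  refine count hQ (fun J hJ => ⟨hJ.2, hJ.1.1, hcov J hJ.1 (by rw [hJ.2]; exact hk)⟩) hM0 hMc

end Pool.Agent.Helper27.FES
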